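import Mathlib

/-!
# Project HR of helper263 (row MP_e3ee0c_gt): abstract part

A hyperbolic system transverse to a flow.  `X` is a metric space inside a normed space `F`
(`e` is an isometric embedding), `g : X → X` a map, `Φ` a flow, `Λ` an invariant set.  At a point
`x ∈ Λ` the tangent space splits as `Vs x ⊕ Vu x ⊕ ℝ c x`, where `c x` is the direction of the
flow; `D x` is the derivative of `g` on `Vs x ⊕ Vu x`.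

Three lemma jobs: `Sys.Corr` (one Newton step), `Sys.Shad` (shadowing up to small times of the flow,
from `Sys.Corr`), `Sys.Lin` (uniqueness for the linearised problem).
-/

set_option autoImplicit false

open Filter Topology

namespace Q263.HR

structure Sys (X F : Type*) [MetricSpace X] [NormedAddCommGroup F] [NormedSpace ℝ F] where
  e : X → F
  isom : ∀ x y, dist x y = ‖e x - e y‖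
  g : X → X
  Φ : ℝ → X → X
  Λ : Set X
  Vs : X → Submodule ℝ F
  Vu : X → Submodule ℝ F
  c : X → F
  D : X → F →ₗ[ℝ] F
  K : ℝ
  L : ℝ
  θ : ℝ
  one_le_K : 1 ≤ K
  one_le_L : 1 ≤ L
  θ_nonneg : 0 ≤ θ
  Kθ : K * θ ≤ 1 / 16
  gcont : Continuous g
  Φcont : Continuous fun z : ℝ × X => Φ z.1 z.2
  Φzero : ∀ x, Φ 0 x = x
  Φadd : ∀ s t x, Φ (s + t) x = Φ s (Φ t x)
  mapΛ : ∀ x ∈ Λ, g x ∈ Λ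
  angle : ∀ x ∈ Λ, ∀ s ∈ Vs x, ∀ u ∈ Vu x, ∀ t : ℝ,
    ‖s‖ ≤ K * ‖s + u + t • c x‖ ∧ ‖u‖ ≤ K * ‖s + u + t • c x‖ ∧ |t| ≤ K * ‖s + u + t • c x‖
  mapS : ∀ x ∈ Λ, ∀ s ∈ Vs x, D x s ∈ Vs (g x)
  mapU : ∀ x ∈ Λ, ∀ u ∈ Vu x, D x u ∈ Vu (g x)
  surjU : ∀ x ∈ Λ, ∀ u ∈ Vu (g x), ∃ b ∈ Vu x, D x b = u
  contrS : ∀ x ∈ Λ, ∀ s ∈ Vs x, ‖D x s‖ ≤ θ * ‖s‖
  contrU : ∀ x ∈ Λ, ∀ u ∈ Vu x, ‖u‖ ≤ θ * ‖D x u‖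
  boundD : ∀ x ∈ Λ, ∀ s ∈ Vs x, ∀ u ∈ Vu x, ‖D x (s + u)‖ ≤ L * ‖s + u‖
  H1 : ∀ η > 0, ∃ r > 0, ∀ x ∈ Λ, ∀ y y', dist x y < r → dist x y' < r →
    ∃ s ∈ Vs x, ∃ u ∈ Vu x, ∃ t : ℝ, ‖e y' - e y - (s + u + t • c x)‖ ≤ η * dist y y'
  H2 : ∀ η > 0, ∃ r > 0, ∀ x ∈ Λ, ∀ y, dist x y < r → ∀ s ∈ Vs x, ∀ u ∈ Vu x, ‖s + u‖ < r →
    ∃ y', ‖e y' - e y - (s + u)‖ ≤ η * ‖s + u‖ ∧
      ‖e (g y') - e (g y) - D x (s + u)‖ ≤ η * ‖s + u‖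
  H4 : ∀ η > 0, ∃ r > 0, ∀ x ∈ Λ, ∀ x' ∈ Λ, dist x x' < r →
    ∀ u ∈ Vu x, ∃ u' ∈ Vu x', ‖u - u'‖ ≤ η * ‖u‖
  H5 : ∀ η > 0, ∃ r > 0, ∀ x ∈ Λ, ∀ x' ∈ Λ, dist x x' < r →
    ∀ s ∈ Vs x, ∃ s' ∈ Vs x', ‖s - s'‖ ≤ η * ‖s‖
  F1 : ∀ η > 0, ∃ r > 0, ∀ (τ : ℝ) (y y' : X), |τ| < r → dist y y' < r →
    ‖(e (Φ τ y') - e (Φ τ y)) - (e y' - e y)‖ ≤ η * dist y y'
  F2 : ∀ η > 0, ∃ r > 0, ∀ (x w : X) (t : ℝ), dist x w < r → |t| < r →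
    ‖e (Φ t w) - e w - t • c x‖ ≤ η * |t|

namespace Sys

variable {X F : Type*} [MetricSpace X] [NormedAddCommGroup F] [NormedSpace ℝ F]

/-- **JOB HR-CORR**: prove `theorem Sys.corr (S : Sys X F) : S.Corr` (namespace `Q263.HR`).
One Newton step.

PROOF.  Put `η = 1/(64 K L)`, let `r ≤ 1` be a radius which works for `H1 η, H2 η, H4 η, F1 η, F2 η`
and put `ρ = r/(100 K L)`.  For each `i` put `w_i = Φ_{τ_i}(g y_i)`; both `w_i` and `y_{σ i}` are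
within `2ρ < r` of `p_{σ i}`.
* `H1` at `x = p_{σ i}`, `y := w_i`, `y' := y_{σ i}`: `s_i ∈ Vs, u_i ∈ Vu, t_i` with
  `‖e y_{σ i} - e w_i - (s_i + u_i + t_i c)‖ ≤ η ε`, so by `angle`
  `‖s_i‖, ‖u_i‖, |t_i| ≤ K (1+η) ε`.
* `H4` from `p_{σ i}` to `g p_i`: `u'_i ∈ Vu (g p_i)`, `‖u_i - u'_i‖ ≤ η ‖u_i‖`; `surjU`: `b_i ∈ Vu p_i`
  with `D b_i = u'_i` and `‖b_i‖ ≤ θ ‖u'_i‖ ≤ (1+η)² ε/16`.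
* `a_i := - s_{σ⁻¹ i} ∈ Vs p_i`, `v_i = a_i + b_i`, `‖v_i‖ ≤ 1.14 K ε < r`.
* `H2` at `p_i, y_i, a_i, b_i`: `y'_i` with `‖e y'_i - e y_i - v_i‖ ≤ η ‖v_i‖` and
  `‖e (g y'_i) - e (g y_i) - D (p_i) v_i‖ ≤ η ‖v_i‖`.  So `dist y_i y'_i ≤ (1+η)‖v_i‖ ≤ 2 K ε` and
  `dist (g y_i) (g y'_i) ≤ ‖D v_i‖ + η ‖v_i‖ ≤ (L + η) ‖v_i‖ ≤ 2.28 K L ε < r` (`boundD`).
* `τ'_i := τ_i + t_i`, `|τ'_i - τ_i| ≤ K (1+η) ε ≤ 2 K ε`.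
* `F1` at `τ_i, g y_i, g y'_i`: `Φ_{τ_i} (g y'_i)` is at distance
  `≤ (1+η)(L+η)‖v_i‖ + 2ρ < r` from `p_{σ i}`; `F2` at `x = p_{σ i}`, `w = Φ_{τ_i} (g y'_i)`, `t = t_i`
  and `Φadd`.
* New residual: `e y'_{σ i} - e (Φ_{τ'_i} g y'_i) = (u_i - u'_i) + b_{σ i} + D(p_i) s_{σ⁻¹ i} + E`, with
  `‖b_{σ i}‖ + ‖D s‖ ≤ ((1+η)² + (1+η)) ε/16 ≤ 0.14 ε` and
  `‖u_i - u'_i‖ + ‖E‖ ≤ η K(1+η) ε + η ε + η ‖v_{σ i}‖ + η |t_i| + η (L+η) ‖v_i‖ + η ‖v_i‖ ≤ 8 η K L ε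
  ≤ ε/8`. -/
def Corr (S : Sys X F) : Prop := ∃ ρ > 0, ∀ (ι : Type) (σ : Equiv.Perm ι) (p : ι → X) (ε : ℝ)
  (y : ι → X) (τ : ι → ℝ), (∀ i, p i ∈ S.Λ) → (∀ i, dist (S.g (p i)) (p (σ i)) < ρ) →
  0 < ε → ε < ρ → (∀ i, dist (p i) (y i) < ρ) → (∀ i, |τ i| < ρ) →
  (∀ i, dist (S.Φ (τ i) (S.g (y i))) (y (σ i)) ≤ ε) →
  ∃ (y' : ι → X) (τ' : ι → ℝ), (∀ i, dist (y i) (y' i) ≤ 2 * S.K * ε) ∧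
    (∀ i, |τ' i - τ i| ≤ 2 * S.K * ε) ∧
    (∀ i, dist (S.Φ (τ' i) (S.g (y' i))) (y' (σ i)) ≤ ε / 2)

/-- **JOB HR-SHAD**: prove
`theorem Sys.shad [CompleteSpace X] (S : Sys X F) (h : S.Corr) : S.Shad` (namespace `Q263.HR`).

PROOF.  Given `η`, let `ρ` be as in `Corr` and `δ ≤ min ρ η / (8 K)`, `δ < ρ`.  Start with
`y⁰ = p`, `τ⁰ = 0` (residual `< δ` by hypothesis and `Φzero`) and iterate `Corr` with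
`ε_k = δ / 2^k`; the displacements after `k` steps are `< 4 K δ ≤ min ρ η / 2`.  The sequences
`y^k_i`, `τ^k_i` are Cauchy (`cauchySeq_of_le_geometric`), and in the limit
`Φ (τ i) (g (y i)) = y (σ i)` by continuity (`gcont`, `Φcont`). -/
def Shad (S : Sys X F) : Prop := ∀ η > 0, ∃ δ > 0, ∀ (ι : Type) (σ : Equiv.Perm ι) (p : ι → X),
  (∀ i, p i ∈ S.Λ) → (∀ i, dist (S.g (p i)) (p (σ i)) < δ) →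
  ∃ (y : ι → X) (τ : ι → ℝ), (∀ i, dist (p i) (y i) < η) ∧ (∀ i, |τ i| < η) ∧
    ∀ i, S.Φ (τ i) (S.g (y i)) = y (σ i)

/-- **JOB HR-LIN**: prove `theorem Sys.lin (S : Sys X F) : S.Lin` (namespace `Q263.HR`).

PROOF.  `η = 1/(64 K² L)`, `r` a radius for `H4 η` and `H5 η`.  Let `m = max ‖ζ i‖ = ‖ζ j‖` and
suppose `m > 0`.  By `angle` with `t = 0`: `‖s i‖, ‖u i‖ ≤ K ‖s i + u i‖ ≤ K (1+η) m` for all `i`.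
For every `i`: `D s_i ∈ Vs (g p_i)`, `‖D s_i‖ ≤ θ ‖s_i‖ ≤ (1+η) m/16`, `D u_i ∈ Vu (g p_i)`,
`‖D u_i‖ ≤ L ‖u_i‖ ≤ L K (1+η) m` (`boundD` with `s = 0`).  By `H5`, `H4` from `g p_i` to `p_{σ i}`:
`s' ∈ Vs p_{σ i}`, `u' ∈ Vu p_{σ i}` with `‖D s_i - s'‖ ≤ η ‖D s_i‖`, `‖D u_i - u'‖ ≤ η ‖D u_i‖`.
`‖(s_{σ i} + u_{σ i}) - (s' + u')‖ ≤ η m + η m + η (1+η) m/16 + η L K (1+η) m ≤ 4 η L K m`, so by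
`angle` (`t = 0`) `‖s_{σ i} - s'‖, ‖u_{σ i} - u'‖ ≤ 4 η L K² m = m/16`.
Taking `i = σ⁻¹ j`: `‖s_j‖ ≤ (1+η)² m/16 + m/16 ≤ 0.13 m`.  Taking `i = j`:
`‖u'‖ ≤ K(1+η) m + m/16`, `‖D u_j‖ ≤ ‖u'‖/(1-η) ≤ 1.1 K m`, `‖u_j‖ ≤ θ ‖D u_j‖ ≤ 0.07 m`.
So `m = ‖ζ_j‖ ≤ ‖s_j‖ + ‖u_j‖ + η m ≤ 0.22 m`, a contradiction. -/
def Lin (S : Sys X F) : Prop := ∃ η > 0, ∃ r > 0, ∀ (ι : Type) [Finite ι] (σ : Equiv.Perm ι)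
  (p : ι → X), (∀ i, p i ∈ S.Λ) → (∀ i, dist (S.g (p i)) (p (σ i)) < r) →
  ∀ (ζ s u : ι → F), (∀ i, s i ∈ S.Vs (p i)) → (∀ i, u i ∈ S.Vu (p i)) →
  (∀ i, ‖ζ i - (s i + u i)‖ ≤ η * ‖ζ i‖) →
  (∀ i, ‖ζ (σ i) - S.D (p i) (s i + u i)‖ ≤ η * ‖ζ i‖) → ∀ i, ζ i = 0

end Sys

end Q263.HR
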