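import Mathlib
import Pool.Agent.H721R2.Build
import Pool.Agent.Q71.WN.Fin
import Pool.Agent.Q263.HR.Abs

/-!
# Project HR of helper263 (row MP_e3ee0c_gt): geometric part, statements of the lemma jobs

`M` is a closed manifold, embedded by `e : M → F` in a normed space with the induced metric,
`β` a smooth one-form, `R` a vector field with `β R = 1` and flow `Φ`.
`dm E e x v` is the derivative of `e` at `x` applied to `v`, `dg E G x v` the derivative of a self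
map (`Pool.Agent.H721R2`).
-/

set_option autoImplicit false

open scoped Manifold ContDiff Topology
open Set Filter Pool.Agent.H721R2

namespace Q263.HR

universe u v w

section defs

variable {E : Type u} [NormedAddCommGroup E] [NormedSpace ℝ E]
  {M : Type v} [MetricSpace M] [ChartedSpace E M]
  {F : Type w} [NormedAddCommGroup F] [NormedSpace ℝ F]

/-- isometric embedding in a normed space -/
structure Emb (E : Type u) [NormedAddCommGroup E] [NormedSpace ℝ E] {M : Type v} [MetricSpace M]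
    [ChartedSpace E M] {F : Type w} [NormedAddCommGroup F] [NormedSpace ℝ F] (e : M → F) : Prop where
  iso : ∀ x y : M, dist x y = ‖e x - e y‖
  smooth : ContMDiff 𝓘(ℝ, E) 𝓘(ℝ, F) ∞ e
  inj : ∀ x, Function.Injective (dm E e x)

/-- uniform continuity of the one-form `β`, measured in the ambient space -/
structure FormCont (e : M → F) (β : M → E →L[ℝ] ℝ) (B : ℝ) : Prop where
  pos : 0 < B
  bd : ∀ (x : M) (v : E), |β x v| ≤ B * ‖dm E e x v‖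
  cont : ∀ η > 0, ∃ r > 0, ∀ x y : M, dist x y < r → ∀ v w : E,
    |β x v - β y w| ≤ η * ‖dm E e x v‖ + B * ‖dm E e x v - dm E e y w‖

/-- uniform estimates for the flow `Φ` of `R`, in the ambient space -/
structure FlowCont (e : M → F) (R : M → E) (Φ : ℝ → M → M) (B : ℝ) : Prop where
  bd : ∀ x, ‖dm E e x (R x)‖ ≤ B
  F1 : ∀ η > 0, ∃ r > 0, ∀ (τ : ℝ) (y y' : M), |τ| < r → dist y y' < r →
    ‖(e (Φ τ y') - e (Φ τ y)) - (e y' - e y)‖ ≤ η * dist y y'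
  F2 : ∀ η > 0, ∃ r > 0, ∀ (x w : M) (t : ℝ), dist x w < r → |t| < r →
    ‖e (Φ t w) - e w - t • dm E e x (R x)‖ ≤ η * |t|

/-- `Λ` is a hyperbolic set for `f`, transversely to `R`, inside the hyperplane field `ker β` -/
structure EH (e : M → F) (f : M ≃ₜ M) (β : M → E →L[ℝ] ℝ) (R : M → E) (Λ : Set M)
    (Es Eu : M → Submodule ℝ E) (C a : ℝ) : Prop where
  smooth : ContMDiff 𝓘(ℝ, E) 𝓘(ℝ, E) 1 f
  smooth' : ContMDiff 𝓘(ℝ, E) 𝓘(ℝ, E) 1 f.symm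
  unit : ∀ x, β x (R x) = 1
  inv : ∀ x ∈ Λ, ∀ n : ℕ, f^[n] x ∈ Λ
  inv' : ∀ x ∈ Λ, ∀ n : ℕ, f.symm^[n] x ∈ Λ
  decomp : ∀ x ∈ Λ, ∀ v, β x v = 0 → ∃ s ∈ Es x, ∃ u ∈ Eu x, s + u = v
  kerS : ∀ x ∈ Λ, ∀ v ∈ Es x, β x v = 0
  kerU : ∀ x ∈ Λ, ∀ v ∈ Eu x, β x v = 0
  C_pos : 1 ≤ C
  a_pos : 0 < a
  a_lt : a < 1
  mapS : ∀ (n : ℕ), ∀ x ∈ Λ, ∀ v ∈ Es x, dg E (f^[n]) x v ∈ Es (f^[n] x)
  mapU : ∀ (n : ℕ), ∀ x ∈ Λ, ∀ v ∈ Eu x, dg E (f^[n]) x v ∈ Eu (f^[n] x)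
  mapS' : ∀ (n : ℕ), ∀ x ∈ Λ, ∀ v ∈ Es x, dg E (f.symm^[n]) x v ∈ Es (f.symm^[n] x)
  mapU' : ∀ (n : ℕ), ∀ x ∈ Λ, ∀ v ∈ Eu x, dg E (f.symm^[n]) x v ∈ Eu (f.symm^[n] x)
  hS : ∀ (n : ℕ), ∀ x ∈ Λ, ∀ v ∈ Es x,
    ‖dm E e (f^[n] x) (dg E (f^[n]) x v)‖ ≤ C * a ^ n * ‖dm E e x v‖
  hU' : ∀ (n : ℕ), ∀ x ∈ Λ, ∀ v ∈ Eu x,
    ‖dm E e (f.symm^[n] x) (dg E (f.symm^[n]) x v)‖ ≤ C * a ^ n * ‖dm E e x v‖

theorem EH.symm {e : M → F} {f : M ≃ₜ M} {β : M → E →L[ℝ] ℝ} {R : M → E} {Λ : Set M}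
    {Es Eu : M → Submodule ℝ E} {C a : ℝ} (h : EH e f β R Λ Es Eu C a) :
    EH e f.symm β R Λ Eu Es C a where
  smooth := h.smooth'
  smooth' := h.smooth
  unit := h.unit
  inv := h.inv'
  inv' := h.inv
  decomp := fun x hx v hv => by
    obtain ⟨s, hs, u, hu, hsu⟩ := h.decomp x hx v hv
    exact ⟨u, hu, s, hs, by rw [add_comm]; exact hsu⟩
  kerS := h.kerU
  kerU := h.kerS
  C_pos := h.C_pos
  a_pos := h.a_pos
  a_lt := h.a_lt
  mapS := h.mapU'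
  mapU := h.mapS'
  mapS' := h.mapU
  mapU' := h.mapS
  hS := h.hU'
  hU' := h.hS

/-- `z` is chain recurrent for the restriction of `g` to `Λ`: for every neighbourhood `V` of the
diagonal there is a closed `V`-chain in `Λ` through `z`. -/
def ChainRec {M : Type v} [TopologicalSpace M] (g : M → M) (Λ : Set M) (z : M) : Prop :=
  ∀ V : Set (M × M), IsOpen V → (∀ x, (x, x) ∈ V) → ∃ (n : ℕ) (q : ℕ → M), 0 < n ∧ q 0 = z ∧
    q n = z ∧ (∀ k, q k ∈ Λ) ∧ ∀ k < n, (g (q k), q (k + 1)) ∈ V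

end defs

/-- **JOB HR-FC**: `theorem fc : S_FC.{u, v, w}` (namespace `Q263.HR`).

PROOF.  Let `φ = extChartAt 𝓘(ℝ, E) x₀`.  Write `Cd x₀ x = dm E φ x` (`Q71.WN.Cd`), `ah β x₀` for the
form in the chart: `ah_eq : ah β x₀ (φ x) (Cd x₀ x v) = β x v` for `x` in the source, and `ah β x₀`
is continuous at `φ x₀` (see `Q71.WN.Dat.ah_continuousAt`; it only needs the smoothness of the form,
`Pool.Agent.Helper186.contDiffOn_chartForm`).
(a) one-point bound.  Near `x₀`: `‖Cd x₀ x v‖ ≤ C ‖dm E e x v‖` (first part of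
`Pool.Agent.H721R2.local_all`) and `‖ah β x₀ (φ x)‖` is bounded; `exists_uniform_const` gives `B₀`
with `|β x v| ≤ B₀ ‖dm E e x v‖` for all `x, v`.  Take `B = B₀`.
(b) Claim: for every `η' > 0` and `x₀` there is `W ∈ 𝓝 x₀` such that for `x, y ∈ W` and every `v`
there is `w'` with `‖dm e x v - dm e y w'‖ ≤ η' ‖dm e x v‖` and `|β x v - β y w'| ≤ η' ‖dm e x v‖`.
Namely let `w'` be the vector with `Cd x₀ y w' = Cd x₀ x v` (`Q71.WN.Cd_inv`).  The first estimate is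
in the proof of the third part of `local_all` (`hatMap_mfderiv` and `hatMap_local`, continuity of
`fderiv (hatMap e x₀)` at `φ x₀`), the second one is the continuity of `ah β x₀` at `φ x₀`.
(c) `exists_uniform_radius` gives `r` for (b).  For arbitrary `w`,
`|β x v - β y w| ≤ |β x v - β y w'| + |β y (w' - w)| ≤ η' ‖dm e x v‖ + B ‖dm e y w' - dm e y w‖
≤ (η' + B η') ‖dm e x v‖ + B ‖dm e x v - dm e y w‖`; take `η' = η/(1+B)`. -/
def S_FC : Prop := ∀ (E : Type u) [NormedAddCommGroup E] [NormedSpace ℝ E] [FiniteDimensional ℝ E]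
  (M : Type v) [MetricSpace M] [CompactSpace M] [ChartedSpace E M] [IsManifold 𝓘(ℝ, E) ∞ M]
  (F : Type w) [NormedAddCommGroup F] [NormedSpace ℝ F] (e : M → F), Emb E e →
  ∀ β : M → E →L[ℝ] ℝ, Pool.Agent.Helper186.SmoothForm (I := 𝓘(ℝ, E)) (M := M) β →
  ∃ B, FormCont e β B

/-- **JOB HR-FL**: `theorem fl : S_FL.{u, v, w}` (namespace `Q263.HR`).

PROOF.  Fix `x₀`, `φ = extChartAt 𝓘(ℝ, E) x₀`, `p₀ = φ x₀`.
(0) There are `C > 0` and `W ∈ 𝓝 x₀`, `W ⊆ φ.source`, with `‖φ y - φ x‖ ≤ C ‖e y - e x‖` for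
`x, y ∈ W`: see the estimate `c7` in the proof of `Pool.Agent.H721R2.local_all` (from
`hatMap_local` for `e` and the injectivity of `fderiv (hatMap e x₀) p₀`).
(1) `Ψ (t, z) = e (Φ t (φ.symm z))` is `C^∞` at `(0, p₀)` (compare `Q71.WN.FD.Psi_contDiff`), so it
has a strict derivative `A` at `(0, p₀)`: for `η' > 0` and `(t, z), (t', z')` near `(0, p₀)`,
`‖Ψ(t',z') - Ψ(t,z) - A (t'-t, z'-z)‖ ≤ η' ‖(t'-t, z'-z)‖`.
(2) F1 locally: subtract the estimates for `(τ, z'), (τ, z)` and `(0, z'), (0, z)`, where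
`z = φ y`, `z' = φ y'` and `Φ 0 = id`: the norm is `≤ 2 η' ‖φ y' - φ y‖ ≤ 2 η' C dist y y'`.
Globally: `exists_uniform_radius` does not see the time `τ`, so use it (or
`lebesgue_number_lemma_of_metric`) with a finite subcover: `∀ x₀, ∃ W ∈ 𝓝 x₀, ∃ r > 0, ∀ |τ| < r,
∀ y y' ∈ W, ...`; take the minimum of finitely many `r` (`exists_uniform_small`) and a Lebesgue
number.
(3) F2 locally: `(t, φ w), (0, φ w)`: `‖e (Φ t w) - e w - t • A (1, 0)‖ ≤ η' |t|`; and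
`A (1, 0) = dm E e x₀ (R x₀)` (chain rule for the curve `t ↦ Φ t x₀`, see
`Q71.WN.FD.hasDerivAt_curve`); also `‖dm E e x (R x) - A (1, 0)‖ ≤ η'` for `x` near `x₀`, because
`dm E e x (R x) = lim (e (Φ t x) - e x)/t`.  So F2 holds for `x, w` near `x₀` with `2 η'`; globalise
as in (2).
(4) `x ↦ dm E e x (R x)` is continuous by (3) and `M` is compact, so it is bounded. -/
def S_FL : Prop := ∀ (E : Type u) [NormedAddCommGroup E] [NormedSpace ℝ E] [FiniteDimensional ℝ E]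
  (M : Type v) [MetricSpace M] [CompactSpace M] [ChartedSpace E M] [IsManifold 𝓘(ℝ, E) ∞ M]
  (F : Type w) [NormedAddCommGroup F] [NormedSpace ℝ F] (e : M → F), Emb E e →
  ∀ (R : M → E) (Φ : ℝ → M → M), Q71.WN.FD R Φ → ∃ B, FlowCont e R Φ B

/-- **JOB HR-DER**: `theorem der : S_DER.{u, v, w}` (namespace `Q263.HR`).

PROOF.  Let `r` be the radius of F1 for `η/2` and `|τ| < r`, `h = e ∘ Φ τ`.  Fix `y` and `v`.
By `dm_comp`, `dm E e (Φ τ y) (dg E (Φ τ) y v) = dm E h y v`.  For small `c > 0`: by the second part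
of `local_all` at `y` (with the vector `c • v`) there is `y'` with
`‖e y' - e y - dm e y (c v)‖ ≤ η' ‖dm e y (c v)‖`, by its first part there is `v'` with
`‖e y' - e y - dm e y v'‖ ≤ η' ‖e y' - e y‖` and `‖h y' - h y - dm h y v'‖ ≤ η' ‖e y' - e y‖`, and
`‖dm h y (c v - v')‖ ≤ C² ‖dm e y (c v - v')‖`.  F1 says `‖(h y' - h y) - (e y' - e y)‖ ≤
(η/2) ‖e y' - e y‖`.  Put together and divide by `c`:
`‖dm h y v - dm e y v‖ ≤ (η/2 + O(η')) ‖dm e y v‖`, and choose `η'` small.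
(Other proof: `s ↦ φ.symm (φ y + s (Cd y v))`, differentiate at `s = 0`.) -/
def S_DER : Prop := ∀ (E : Type u) [NormedAddCommGroup E] [NormedSpace ℝ E] [FiniteDimensional ℝ E]
  (M : Type v) [MetricSpace M] [CompactSpace M] [ChartedSpace E M] [IsManifold 𝓘(ℝ, E) ∞ M]
  (F : Type w) [NormedAddCommGroup F] [NormedSpace ℝ F] (e : M → F), Emb E e →
  ∀ (Φ : ℝ → M → M), (∀ t, ContMDiff 𝓘(ℝ, E) 𝓘(ℝ, E) ∞ (Φ t)) →
  (∀ η > 0, ∃ r > 0, ∀ (τ : ℝ) (y y' : M), |τ| < r → dist y y' < r →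
    ‖(e (Φ τ y') - e (Φ τ y)) - (e y' - e y)‖ ≤ η * dist y y') →
  ∀ η > 0, ∃ r > 0, ∀ τ : ℝ, |τ| < r → ∀ (y : M) (v : E),
    ‖dm E e (Φ τ y) (dg E (Φ τ) y v) - dm E e y v‖ ≤ η * ‖dm E e y v‖

/-- **JOB HR-TR**: `theorem tr : S_TR.{u, v, w}` (namespace `Q263.HR`).

PROOF.  Put `h = e ∘ G`, `dm_comp`: `dm E h x v = dm E e (G x) (dg E G x v)`; `global_bound` gives
`Bg` with `‖dm h x v‖ ≤ Bg ‖dm e x v‖`.  Uniform versions of the three local facts of `local_all`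
(see `exists_hypSys` in `Pool.Agent.H721R2.Build`, with `exists_uniform_radius` and
`exists_uniform_small`): (i) `dist x y < r → ∃ v, ‖e y - e x - dm e x v‖ ≤ η' ‖e y - e x‖ ∧
‖h y - h x - dm h x v‖ ≤ η' ‖e y - e x‖`; (ii) `‖dm e x v‖ < r → ∃ y, ‖e y - e x - dm e x v‖ ≤
η' ‖dm e x v‖`; (iii) `dist x y < r → ∀ v, ∃ w, ‖dm e x v - dm e y w‖ ≤ η' ‖dm e x v‖ ∧
‖dm h x v - dm h y w‖ ≤ η' ‖dm e x v‖`.
First statement: (i) at `y, y'` gives `v₁` with `e y' - e y ≈ dm e y v₁`, (iii) from `y` to `x`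
gives `v` with `dm e y v₁ ≈ dm e x v`.
Second statement: (iii) from `x` to `y` gives `w`; (ii) at `y` gives `y'` with
`e y' - e y ≈ dm e y w` (so `dist y y' ≤ 4 ‖dm e x v‖` is small); (i) at `y, y'` gives `v'` with
`e y' - e y ≈ dm e y v'`, `h y' - h y ≈ dm h y v'`; `‖dm h y (v' - w)‖ ≤ Bg ‖dm e y (v' - w)‖`.
Third statement: this is (iii). -/
def S_TR : Prop := ∀ (E : Type u) [NormedAddCommGroup E] [NormedSpace ℝ E] [FiniteDimensional ℝ E]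
  (M : Type v) [MetricSpace M] [CompactSpace M] [ChartedSpace E M] [IsManifold 𝓘(ℝ, E) ∞ M]
  (F : Type w) [NormedAddCommGroup F] [NormedSpace ℝ F] (e : M → F), Emb E e →
  ∀ (G : M → M), ContMDiff 𝓘(ℝ, E) 𝓘(ℝ, E) 1 G → ∀ η > 0, ∃ r > 0,
    (∀ x y y' : M, dist x y < r → dist x y' < r → ∃ v : E,
      ‖e y' - e y - dm E e x v‖ ≤ η * dist y y') ∧
    (∀ x y : M, dist x y < r → ∀ v : E, ‖dm E e x v‖ < r → ∃ y' : M,
      ‖e y' - e y - dm E e x v‖ ≤ η * ‖dm E e x v‖ ∧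
      ‖e (G y') - e (G y) - dm E e (G x) (dg E G x v)‖ ≤ η * ‖dm E e x v‖) ∧
    (∀ x y : M, dist x y < r → ∀ v : E, ∃ w : E,
      ‖dm E e x v - dm E e y w‖ ≤ η * ‖dm E e x v‖ ∧
      ‖dm E e (G x) (dg E G x v) - dm E e (G y) (dg E G y w)‖ ≤ η * ‖dm E e x v‖)

/-- **JOB HR-ANG**: `theorem ang : S_ANG.{u, v, w}` (namespace `Q263.HR`).

PROOF.  (1) Two-way angle: `∃ K₂ ≥ 1, ∀ x ∈ Λ, s ∈ Es x, u ∈ Eu x, ‖dm e x s‖, ‖dm e x u‖ ≤
K₂ ‖dm e x (s + u)‖`: word for word the proof of `Pool.Agent.H721R2.EAnosov.angle` (Embed.lean),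
which only uses points of the orbit of `x`.
(2) Three-way: let `ξ = s + u + t • R x`.  `β x ξ = t` by `kerS, kerU, unit`, so
`|t| ≤ B ‖dm e x ξ‖`, `‖dm e x (s + u)‖ ≤ ‖dm e x ξ‖ + |t| B' ≤ (1 + B B') ‖dm e x ξ‖` (`B' ≥ 0`
as `B'` bounds a norm; if `M` is empty take `K = 1`), and (1) gives the rest:
`K = max B (K₂ (1 + B B'))`, made `≥ 1`. -/
def S_ANG : Prop := ∀ (E : Type u) [NormedAddCommGroup E] [NormedSpace ℝ E] [FiniteDimensional ℝ E]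
  (M : Type v) [MetricSpace M] [CompactSpace M] [ChartedSpace E M] [IsManifold 𝓘(ℝ, E) ∞ M]
  (F : Type w) [NormedAddCommGroup F] [NormedSpace ℝ F] (e : M → F), Emb E e →
  ∀ (β : M → E →L[ℝ] ℝ) (B : ℝ), FormCont e β B → ∀ (R : M → E) (B' : ℝ),
  (∀ x, ‖dm E e x (R x)‖ ≤ B') → ∀ (f : M ≃ₜ M) (Λ : Set M) (Es Eu : M → Submodule ℝ E) (C a : ℝ),
  EH e f β R Λ Es Eu C a → ∃ K ≥ 1, ∀ x ∈ Λ, ∀ s ∈ Es x, ∀ u ∈ Eu x, ∀ t : ℝ,
    ‖dm E e x s‖ ≤ K * ‖dm E e x (s + u + t • R x)‖ ∧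
    ‖dm E e x u‖ ≤ K * ‖dm E e x (s + u + t • R x)‖ ∧
    |t| ≤ K * ‖dm E e x (s + u + t • R x)‖

/-- **JOB HR-CONT**: `theorem cont : S_CONT.{u, v, w}` (namespace `Q263.HR`).

PROOF.  Adapt `Pool.Agent.H721R2.EAnosov.contS` (Embed.lean).  Choose `n` with
`C a^n ≤ q := min (1/(6K)) (η/8)`.  Let `Bn` be the constant of `global_bound` for `f^[n]`.  For
`η' > 0` small let `r` be a uniform radius of the third part of `local_all` with `h = e ∘ f^[n]`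
(exactly as in `contS`), and of `FormCont.cont` for `η'`.  Let `x, y ∈ Λ`, `dist x y < r`,
`s ∈ Es x`, `N = ‖dm e x s‖`.  Get `w` with `‖dm e x s - dm e y w‖ ≤ η' N` and
`‖dm e (f^n x) (dg f^n x s) - dm e (f^n y) (dg f^n y w)‖ ≤ η' N`.  Put `t = β y w`; since
`β x s = 0`, `|t| ≤ η' N + B η' N`.  Put `w' = w - t • R y`; `β y w' = 0`, so `w' = ws + wu` with
`ws ∈ Es y`, `wu ∈ Eu y` (`decomp`).  `‖dm e x s - dm e y w'‖ ≤ η' N + |t| B'` and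
`‖dm e (f^n x) (dg f^n x s) - dm e (f^n y) (dg f^n y w')‖ ≤ η' N + |t| Bn B'`.  With
`η'' = η' (1 + (1 + B)(1 + Bn) (1 + |B'|))`, small as we like, both are `≤ η'' N`, and the rest is as
in `contS` (with `w'` for `w` and `η''` for `η'`): `s' = ws`. -/
def S_CONT : Prop := ∀ (E : Type u) [NormedAddCommGroup E] [NormedSpace ℝ E] [FiniteDimensional ℝ E]
  (M : Type v) [MetricSpace M] [CompactSpace M] [ChartedSpace E M] [IsManifold 𝓘(ℝ, E) ∞ M]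
  (F : Type w) [NormedAddCommGroup F] [NormedSpace ℝ F] (e : M → F), Emb E e →
  ∀ (β : M → E →L[ℝ] ℝ) (B : ℝ), FormCont e β B → ∀ (R : M → E) (B' : ℝ),
  (∀ x, ‖dm E e x (R x)‖ ≤ B') → ∀ (f : M ≃ₜ M) (Λ : Set M) (Es Eu : M → Submodule ℝ E) (C a : ℝ),
  EH e f β R Λ Es Eu C a → ∀ K : ℝ, 1 ≤ K → (∀ x ∈ Λ, ∀ s ∈ Es x, ∀ u ∈ Eu x,
    ‖dm E e x s‖ ≤ K * ‖dm E e x (s + u)‖ ∧ ‖dm E e x u‖ ≤ K * ‖dm E e x (s + u)‖) →
  ∀ η > 0, ∃ r > 0, ∀ x ∈ Λ, ∀ y ∈ Λ, dist x y < r → ∀ s ∈ Es x, ∃ s' ∈ Es y,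
    ‖dm E e x s - dm E e y s'‖ ≤ η * ‖dm E e x s‖

/-- **JOB HR-LT**: `theorem lt : S_LT.{u, v, w}` (namespace `Q263.HR`).

PROOF.  Use the third statement of `S_TR` (hypothesis `hTR`; or the third part of `local_all`) from
`y` to `x` with `η'`: `w` with `‖dm e y v - dm e x w‖ ≤ η' N`, `N = ‖dm e y v‖`, and
`‖dm e (G y) (dg G y v) - dm e (G x) (dg G x w)‖ ≤ η' N`.  `t = β x w`, `β y v = 0`, so
`|t| ≤ η' N + B η' N` (`FormCont.cont` for the pair `y, x`).  `w' = w - t • R x` has `β x w' = 0`, so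
`w' = s + u` by `hdec`, and the corrections are `|t| ‖dm e x (R x)‖ ≤ |t| B'` and
`‖dm e (G x) (dg G x (t • R x))‖ ≤ |t| Bg B'` with `Bg` from `global_bound`. -/
def S_LT : Prop := ∀ (E : Type u) [NormedAddCommGroup E] [NormedSpace ℝ E] [FiniteDimensional ℝ E]
  (M : Type v) [MetricSpace M] [CompactSpace M] [ChartedSpace E M] [IsManifold 𝓘(ℝ, E) ∞ M]
  (F : Type w) [NormedAddCommGroup F] [NormedSpace ℝ F] (e : M → F), Emb E e →
  ∀ (β : M → E →L[ℝ] ℝ) (B : ℝ), FormCont e β B → ∀ (R : M → E) (B' : ℝ),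
  (∀ x, ‖dm E e x (R x)‖ ≤ B') → (∀ x, β x (R x) = 1) →
  ∀ (G : M → M), ContMDiff 𝓘(ℝ, E) 𝓘(ℝ, E) 1 G →
  ∀ (Λ : Set M) (Es Eu : M → Submodule ℝ E),
  (∀ x ∈ Λ, ∀ v, β x v = 0 → ∃ s ∈ Es x, ∃ u ∈ Eu x, s + u = v) →
  ∀ η > 0, ∃ r > 0, ∀ x ∈ Λ, ∀ y : M, dist x y < r → ∀ v : E, β y v = 0 →
    ∃ s ∈ Es x, ∃ u ∈ Eu x, ‖dm E e y v - dm E e x (s + u)‖ ≤ η * ‖dm E e y v‖ ∧
      ‖dm E e (G y) (dg E G y v) - dm E e (G x) (dg E G x (s + u))‖ ≤ η * ‖dm E e y v‖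

/-- **JOB HR-CHAIN**: `theorem chain : S_CHAIN.{v}` and `theorem omega : S_OMEGA.{v}`
(namespace `Q263.HR`).

PROOF of `S_CHAIN`.  By induction on `N` and uniform continuity of `g` there is `δ' > 0` such that
every sequence `q : ℕ → M` with `dist (g (q k)) (q (k+1)) < δ'` for all `k` satisfies
`dist (g^[N] (q k)) (q (k + N)) < δ` for all `k`.  Apply the hypothesis to
`V = {(x, y) | dist x y < δ'}`: it gives `m = n > 0` and `q 0, ..., q m = q 0 = z` in `Λ`; extend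
periodically, `q' k = q (k % m)`.  Put `p j = q' (N * j.val)` for `j : ZMod m`, i.e.
`p j = q ((N * j.val) % m)`; `p 0 = z`, and `p (j + 1) = q' (N * j.val + N)` because
`(N * (j+1).val) % m = (N * j.val + N) % m`.
PROOF of `S_OMEGA`.  `z ∈ Λ` because `Λ` is closed and contains the orbit of `x`.  Given `V`, by
compactness there is `δ > 0` such that `dist x y < δ` implies `(x, y) ∈ V` (Lebesgue number or
`Metric.mem_uniformity_dist` with `lebesgue_number_of_compact_open`).  By continuity of `g` at `z`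
there are infinitely many `k` with `f^k x` so near `z` that `dist (g (f^k x)) (g z) < δ` and
`dist (f^k x) z < δ` (`mem_omegaLimit_singleton_iff_map_cluster_point`).  Take two of them, `i < j`,
`m = j - i`, `q 0 = z`, `q k = g^[i + k] x` for `0 < k < m`, `q k = z` for `k ≥ m`.  For `m = 1` the
condition reads `(g z, z) ∈ V`; to get it choose `δ` with room (`δ/2` and the triangle inequality
through `g^[i+1] x = g^[j] x`). -/
def S_CHAIN : Prop := ∀ (M : Type v) [MetricSpace M] [CompactSpace M] (g : M → M), Continuous g →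
  ∀ (Λ : Set M) (z : M), ChainRec g Λ z → ∀ (N : ℕ) (δ : ℝ), 0 < δ → ∃ (m : ℕ) (p : ZMod m → M),
    0 < m ∧ (∀ j, p j ∈ Λ) ∧ p 0 = z ∧ ∀ j, dist (g^[N] (p j)) (p (j + 1)) < δ

/-- see `S_CHAIN` -/
def S_OMEGA : Prop := ∀ (M : Type v) [MetricSpace M] [CompactSpace M] (g : M → M), Continuous g →
  ∀ (Λ : Set M), IsClosed Λ → (∀ x ∈ Λ, g x ∈ Λ) → ∀ x ∈ Λ,
  ∀ z ∈ omegaLimit atTop (fun (n : ℕ) (y : M) => g^[n] y) {x}, z ∈ Λ ∧ ChainRec g Λ z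

end Q263.HR
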