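import Mathlib
import Pool.Agent.Q263.HR.Geo

set_option autoImplicit false

/-! Project HR (helper263), job HR-CHAIN (helper239): periodic pseudo-orbits from chain recurrence; omega limit points
are chain recurrent. -/

open scoped Topology
open Set Filter

namespace Q263.HR

universe v

theorem chain_aux {M : Type v} [MetricSpace M] [CompactSpace M] {g : M → M} (hg : Continuous g) (N : ℕ) :
    ∀ δ : ℝ, 0 < δ → ∃ δ' : ℝ, 0 < δ' ∧ ∀ q : ℕ → M, (∀ k, dist (g (q k)) (q (k + 1)) < δ') →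
      ∀ k, dist (g^[N] (q k)) (q (k + N)) < δ := by
  induction N with
  | zero => exact fun δ hδ => ⟨1, one_pos, fun q _ k => by simpa using hδ⟩
  | succ N ih =>
    intro δ hδ
    have huc := CompactSpace.uniformContinuous_of_continuous hg
    obtain ⟨ε, hε, h1⟩ := Metric.uniformContinuous_iff.1 huc (δ / 2) (half_pos hδ)
    obtain ⟨δ1, hδ1, h2⟩ := ih ε hε
    refine ⟨min δ1 (δ / 2), lt_min hδ1 (half_pos hδ), fun q hq k => ?_⟩
    have e1 := h1 (h2 q (fun k => (hq k).trans_le (min_le_left _ _)) k)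
    have e2 := (hq (k + N)).trans_le (min_le_right _ _)
    rw [Function.iterate_succ_apply']
    calc dist (g (g^[N] (q k))) (q (k + (N + 1))) ≤
        dist (g (g^[N] (q k))) (g (q (k + N))) + dist (g (q (k + N))) (q (k + (N + 1))) :=
          dist_triangle _ _ _
      _ < δ / 2 + δ / 2 := add_lt_add e1 e2
      _ = δ := by ring

theorem chain0 {M : Type v} [MetricSpace M] [CompactSpace M] {g : M → M} (hg : Continuous g)
    {Λ : Set M} {z : M} (hz : ∀ V : Set (M × M), IsOpen V → (∀ x, (x, x) ∈ V) → ∃ (n : ℕ) (q : ℕ → M),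
      0 < n ∧ q 0 = z ∧ q n = z ∧ (∀ k, q k ∈ Λ) ∧ ∀ k < n, (g (q k), q (k + 1)) ∈ V) (N : ℕ)
    (δ : ℝ) (hδ : 0 < δ) : ∃ (m : ℕ) (p : ZMod m → M),
    0 < m ∧ (∀ j, p j ∈ Λ) ∧ p 0 = z ∧ ∀ j, dist (g^[N] (p j)) (p (j + 1)) < δ := by
  obtain ⟨δ', hδ', h1⟩ := chain_aux hg N δ hδ
  obtain ⟨n, q, hn, hq0, hqn, hqΛ, hq⟩ := hz {p | dist p.1 p.2 < δ'}
    (isOpen_lt (by fun_prop) continuous_const) (fun x => by simpa using hδ')
  have : NeZero n := ⟨hn.ne'⟩
  have hq' : ∀ k, dist (g (q (k % n))) (q ((k + 1) % n)) < δ' := by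
    intro k
    have hr := Nat.mod_lt k hn
    by_cases h : k % n + 1 < n
    · have e : (k + 1) % n = k % n + 1 := by
        rw [Nat.add_mod, Nat.mod_eq_of_lt (show 1 < n by omega), Nat.mod_eq_of_lt h]
      rw [e]
      exact hq _ hr
    · have e0 : k % n + 1 = n := by omega
      have e : (k + 1) % n = 0 := by
        rw [← Nat.mod_add_mod, e0, Nat.mod_self]
      rw [e, hq0, ← hqn]
      have := hq _ hr
      rwa [e0] at this
  have h2 := h1 (fun k => q (k % n)) hq'
  refine ⟨n, fun j => q ((N * j.val) % n), hn, fun j => hqΛ _, ?_, fun j => ?_⟩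
  · simp [hq0]
  · have h3 := h2 (N * j.val)
    have e : (N * (j + 1).val) % n = (N * j.val + N) % n := by
      rw [ZMod.val_add, ZMod.val_one_eq_one_mod]
      have : (j.val + 1 % n) % n ≡ j.val + 1 [MOD n] := by
        unfold Nat.ModEq
        rw [Nat.mod_mod, Nat.add_mod_mod]
      have := this.mul_left N
      unfold Nat.ModEq at this
      rw [this, mul_add, mul_one]
    dsimp only at h3 ⊢
    rw [e]
    exact h3

theorem omega0 {M : Type v} [MetricSpace M] [CompactSpace M] {g : M → M} (hg : Continuous g)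
    {Λ : Set M} (hΛ : IsClosed Λ) (hinv : ∀ x ∈ Λ, g x ∈ Λ) {x : M} (hx : x ∈ Λ) {z : M}
    (hz : z ∈ omegaLimit atTop (fun (n : ℕ) (y : M) => g^[n] y) {x}) :
    z ∈ Λ ∧ ∀ V : Set (M × M), IsOpen V → (∀ x, (x, x) ∈ V) → ∃ (n : ℕ) (q : ℕ → M),
      0 < n ∧ q 0 = z ∧ q n = z ∧ (∀ k, q k ∈ Λ) ∧ ∀ k < n, (g (q k), q (k + 1)) ∈ V := by
  have hiter : ∀ n : ℕ, g^[n] x ∈ Λ := by
    intro n
    induction n with
    | zero => exact hx
    | succ n ih => rw [Function.iterate_succ_apply']; exact hinv _ ih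
  have hfreq : ∀ U ∈ 𝓝 z, ∀ a : ℕ, ∃ b ≥ a, g^[b] x ∈ U := by
    intro U hU a
    rw [mem_omegaLimit_iff_frequently] at hz
    have h1 := hz U hU
    rw [frequently_atTop] at h1
    obtain ⟨b, hb, y, hy1, hy2⟩ := h1 a
    rw [mem_singleton_iff] at hy1
    subst hy1
    exact ⟨b, hb, hy2⟩
  have hzΛ : z ∈ Λ := by
    by_contra h
    obtain ⟨b, -, hb⟩ := hfreq Λᶜ (hΛ.isOpen_compl.mem_nhds h) 0
    exact hb (hiter b)
  refine ⟨hzΛ, fun V hV hdiag => ?_⟩
  have hVu : V ∈ uniformity M := by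
    rw [compactSpace_uniformity, Filter.mem_iSup]
    exact fun y => hV.mem_nhds (hdiag y)
  obtain ⟨δ, hδ, hδV⟩ := Metric.mem_uniformity_dist.1 hVu
  obtain ⟨ρ, hρ, hρg⟩ := Metric.continuousAt_iff.1 (hg.continuousAt (x := z)) (δ / 2) (half_pos hδ)
  have hball : Metric.ball z (min ρ (δ / 2)) ∈ 𝓝 z := Metric.ball_mem_nhds _ (lt_min hρ (half_pos hδ))
  obtain ⟨i, -, hi⟩ := hfreq _ hball 0
  obtain ⟨j, hij, hj⟩ := hfreq _ hball (i + 1)
  rw [Metric.mem_ball] at hi hj
  have hi1 : dist (g (g^[i] x)) (g z) < δ / 2 := hρg (hi.trans_le (min_le_left _ _))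
  have hj2 : dist (g^[j] x) z < δ / 2 := hj.trans_le (min_le_right _ _)
  set m := j - i with hm
  have hm1 : 1 ≤ m := by omega
  refine ⟨m, fun k => if k = 0 then z else if k < m then g^[i + k] x else z, hm1, by simp, ?_, ?_, ?_⟩
  · dsimp only
    rw [if_neg (by omega), if_neg (by omega)]
  · intro k
    dsimp only
    split_ifs
    · exact hzΛ
    · exact hiter _
    · exact hzΛ
  · intro k hk
    apply hδV
    dsimp only
    rcases Nat.eq_zero_or_pos k with rfl | hk0
    · rw [if_pos rfl, if_neg (by omega)]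
      by_cases h1 : 0 + 1 < m
      · rw [if_pos h1]
        have e : g^[i + (0 + 1)] x = g (g^[i] x) := by
          rw [show i + (0 + 1) = i + 1 by ring, Function.iterate_succ_apply']
        rw [e, dist_comm]
        linarith
      · rw [if_neg h1]
        have e : g^[j] x = g (g^[i] x) := by
          rw [show j = i + 1 by omega, Function.iterate_succ_apply']
        rw [e] at hj2
        calc dist (g z) z ≤ dist (g z) (g (g^[i] x)) + dist (g (g^[i] x)) z := dist_triangle _ _ _
          _ < δ / 2 + δ / 2 := add_lt_add (by rw [dist_comm]; exact hi1) hj2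
          _ = δ := by ring
    · rw [if_neg (by omega), if_pos hk, if_neg (by omega)]
      by_cases h1 : k + 1 < m
      · rw [if_pos h1]
        have e : g^[i + (k + 1)] x = g (g^[i + k] x) := by
          rw [← add_assoc, Function.iterate_succ_apply']
        rw [e, dist_self]
        exact hδ
      · rw [if_neg h1]
        have e : g^[j] x = g (g^[i + k] x) := by
          rw [show j = (i + k) + 1 by omega, Function.iterate_succ_apply']
        rw [← e]
        linarith

/-- job HR-CHAIN, first part -/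
theorem chain : S_CHAIN.{v} := fun _ _ _ _ hg _ _ hz N δ hδ => chain0 hg hz N δ hδ

/-- job HR-CHAIN, second part -/
theorem omega : S_OMEGA.{v} := fun _ _ _ _ hg _ hΛ hinv _ hx _ hz => omega0 hg hΛ hinv hx hz

end Q263.HR
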