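import Mathlib
import Pool.Agent.Q263.HR.SysB

/-! From shadowing to closed orbits. -/

set_option autoImplicit false
set_option linter.unusedSectionVars false

open scoped Manifold ContDiff Topology
open Set Filter Pool.Agent.H721R2 Pool.Agent.H826R2.Wein

namespace Q263.HR

universe u v w

variable {E : Type u} [NormedAddCommGroup E] [NormedSpace ℝ E] [FiniteDimensional ℝ E]
  {M : Type v} [MetricSpace M] [CompactSpace M] [ChartedSpace E M] [IsManifold 𝓘(ℝ, E) ∞ M]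
  {F : Type w} [NormedAddCommGroup F] [NormedSpace ℝ F]

theorem iter_smooth_inf (f : M → M) (hf : ContMDiff 𝓘(ℝ, E) 𝓘(ℝ, E) ∞ f) (n : ℕ) :
    ContMDiff 𝓘(ℝ, E) 𝓘(ℝ, E) ∞ (f^[n]) := by
  induction n with
  | zero => exact contMDiff_id
  | succ n ih => exact ih.comp hf

theorem iter_strict {β : M → E →L[ℝ] ℝ} (f : M → M) (hf : ContMDiff 𝓘(ℝ, E) 𝓘(ℝ, E) ∞ f)
    (hs : ∀ x (u : E), β (f x) (dg E f x u) = β x u) (n : ℕ) (x : M) (u : E) :
    β (f^[n] x) (dg E (f^[n]) x u) = β x u := by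
  have h1 : ContMDiff 𝓘(ℝ, E) 𝓘(ℝ, E) 1 f := hf.of_le (by simp)
  induction n generalizing x u with
  | zero =>
    have : dg E (f^[0]) x u = u := by
      show mfderiv 𝓘(ℝ, E) 𝓘(ℝ, E) id x u = u
      rw [mfderiv_id]; rfl
    rw [this]; rfl
  | succ n ih =>
    have h2 := dg_comp (E₀ := E) f (f^[n]) h1 (iter_smooth f h1 n) x u
    have h3 : f^[n + 1] = f^[n] ∘ f := rfl
    rw [h3]
    show β (f^[n] (f x)) (dg E (f^[n] ∘ f) x u) = β x u
    rw [h2, ih, hs]

/-- closed orbits near the chain recurrent points -/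
theorem closed_orbit (hLT : S_LT.{u, v, w}) (hDER : S_DER.{u, v, w}) (hCH : S_CHAIN.{v})
    {e : M → F} (he : Emb E e)
    {β : M → E →L[ℝ] ℝ} {B : ℝ} (hβ : FormCont e β B) {R : M → E} {Φ : ℝ → M → M} {B' : ℝ}
    (hΦ : FlowCont e R Φ B') (c : CD (P := M) β R) (d : Q71.WN.Dat β R Φ) {f : M ≃ₜ M} {Λ : Set M}
    {Es Eu : M → Submodule ℝ E} {C a : ℝ} (h : EH e f β R Λ Es Eu C a)
    (hf : ContMDiff 𝓘(ℝ, E) 𝓘(ℝ, E) ∞ f) (hs : ∀ x (u : E), β (f x) (dg E f x u) = β x u)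
    (N : ℕ) (S : Sys M F) (hR : Real S e (f^[N]) Φ Λ Es Eu)
    (hSh : S.Shad) (hLin : S.Lin) (z : M) (hz : ChainRec f Λ z) (U : Set M) (hU : U ∈ 𝓝 z) :
    ∃ y ∈ U, ∃ T : ℝ, 0 < T ∧ Φ T y = y := by
  have he1 : ContMDiff 𝓘(ℝ, E) 𝓘(ℝ, F) 1 e := he.smooth.of_le (by simp)
  set G : M → M := f^[N] with hG
  have hGinf : ContMDiff 𝓘(ℝ, E) 𝓘(ℝ, E) ∞ G := iter_smooth_inf f hf N
  have hG1 : ContMDiff 𝓘(ℝ, E) 𝓘(ℝ, E) 1 G := hGinf.of_le (by simp)
  have hGs : ∀ x (u : E), β (G x) (dg E G x u) = β x u := iter_strict f hf hs N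
  have hΦt : ∀ t, ContMDiff 𝓘(ℝ, E) 𝓘(ℝ, E) ∞ (Φ t) := d.toFD.smooth_t
  have hΦt1 : ∀ t, ContMDiff 𝓘(ℝ, E) 𝓘(ℝ, E) 1 (Φ t) := fun t => (hΦt t).of_le (by simp)
  obtain ⟨Bg, hBg, hBgv⟩ := global_bound e he1 he.inj G hG1
  obtain ⟨ηL, hηL, rL, hrL, hlin⟩ := hLin
  obtain ⟨r1, hr1, hlt⟩ := hLT E M F e he β B hβ R B' hΦ.bd h.unit G hG1 Λ Es Eu h.decomp (ηL / 2)
    (by positivity)
  obtain ⟨r2, hr2, hder⟩ := hDER E M F e he Φ hΦt hΦ.F1 (ηL / (2 * Bg)) (by positivity)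
  obtain ⟨r3, hr3, hball⟩ := Metric.mem_nhds_iff.1 hU
  set η0 := min (min r1 r2) r3 with hη0
  have hη0pos : 0 < η0 := lt_min (lt_min hr1 hr2) hr3
  obtain ⟨δ, hδ, hshad⟩ := hSh η0 hη0pos
  obtain ⟨m, p, hm, hpΛ, hp0, hpc⟩ := hCH M f f.continuous Λ z hz N (min δ rL) (lt_min hδ hrL)
  have : NeZero m := ⟨hm.ne'⟩
  have hgeq : ∀ x, S.g x = G x := fun x => congrFun hR.g_eq x
  obtain ⟨y, τ, hy1, hy2, hy3⟩ := hshad (ZMod m) (Equiv.addRight (1 : ZMod m)) p
    (fun j => by rw [hR.Λ_eq]; exact hpΛ j)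
    (fun j => by rw [hgeq]; exact (hpc j).trans_le (min_le_left _ _))
  have hy3' : ∀ j, Φ (τ j) (G (y j)) = y (j + 1) := by
    intro j
    have := hy3 j
    rw [hgeq, hR.Φ_eq] at this
    exact this
  -- the flow commutes with `G`
  have hcomm : ∀ t x, G (Φ t x) = Φ t (G x) := fun t x => Q71.WN.commute hGinf hGs c d t x
  -- composition along the orbit
  let T : ℕ → ℝ := fun k => ∑ j ∈ Finset.range k, τ (j : ZMod m)
  let H : ℕ → M → M := fun k x => Φ (T k) (G^[k] x)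
  have hT : ∀ k, T (k + 1) = τ (k : ZMod m) + T k := fun k => by
    show ∑ j ∈ Finset.range (k + 1), τ (j : ZMod m) = _
    rw [Finset.sum_range_succ, add_comm]
  have hH : ∀ k, H (k + 1) = Φ (τ (k : ZMod m)) ∘ (G ∘ H k) := by
    intro k
    ext1 x
    show Φ (T (k + 1)) (G^[k + 1] x) = Φ (τ (k : ZMod m)) (G (Φ (T k) (G^[k] x)))
    rw [hT, d.add, hcomm, Function.iterate_succ_apply']
  have hH0 : H 0 = id := by
    ext1 x
    show Φ (∑ j ∈ Finset.range 0, τ (j : ZMod m)) x = x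
    rw [Finset.sum_range_zero, d.zero]
  have hHy : ∀ k : ℕ, H k (y 0) = y (k : ZMod m) := by
    intro k
    induction k with
    | zero => rw [hH0, Nat.cast_zero]; rfl
    | succ k ih =>
      rw [hH]
      show Φ (τ (k : ZMod m)) (G (H k (y 0))) = _
      rw [ih, hy3', Nat.cast_succ]
  have hHinf : ∀ k, ContMDiff 𝓘(ℝ, E) 𝓘(ℝ, E) ∞ (H k) := fun k =>
    (hΦt (T k)).comp (iter_smooth_inf G hGinf k)
  have hH1 : ∀ k, ContMDiff 𝓘(ℝ, E) 𝓘(ℝ, E) 1 (H k) := fun k => (hHinf k).of_le (by simp)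
  have hHm : H m (y 0) = y 0 := by rw [hHy, ZMod.natCast_self]
  -- nondegeneracy
  have hnd : ∀ u : E, β (y 0) u = 0 → dg E (H m) (y 0) u = u → u = 0 := by
    intro u hu huv
    set v : ℕ → E := fun k => dg E (H k) (y 0) u with hv
    have hv0 : v 0 = u := by
      show dg E (H 0) (y 0) u = u
      rw [hH0]
      show mfderiv 𝓘(ℝ, E) 𝓘(ℝ, E) id (y 0) u = u
      rw [mfderiv_id]; rfl
    have hvs : ∀ k : ℕ, v (k + 1) = dg E (Φ (τ (k : ZMod m))) (G (y (k : ZMod m)))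
        (dg E G (y (k : ZMod m)) (v k)) := by
      intro k
      show dg E (H (k + 1)) (y 0) u = _
      rw [hH, dg_comp _ _ (hG1.comp (hH1 k)) (hΦt1 _), dg_comp _ _ (hH1 k) hG1]
      show dg E (Φ (τ (k : ZMod m))) (G (H k (y 0))) (dg E G (H k (y 0)) (v k)) = _
      rw [hHy]
    have hβv : ∀ k : ℕ, β (y (k : ZMod m)) (v k) = 0 := by
      intro k
      induction k with
      | zero => rw [hv0, Nat.cast_zero]; exact hu
      | succ k ih =>
        have h1 := d.strict (τ (k : ZMod m)) (G (y (k : ZMod m))) (dg E G (y (k : ZMod m)) (v k))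
        rw [hy3', hGs, ih] at h1
        rw [hvs, Nat.cast_succ]
        exact h1
    have hvm : v m = v 0 := by rw [hv0]; exact huv
    have hval : ∀ j : ZMod m, v (j + 1).val = v (j.val + 1) := by
      intro j
      have h3 : j + 1 = ((j.val + 1 : ℕ) : ZMod m) := by
        rw [Nat.cast_succ, ZMod.natCast_zmod_val]
      by_cases hj : j.val + 1 < m
      · rw [h3, ZMod.val_cast_of_lt hj]
      · have h1 : j.val + 1 = m := by
          have := ZMod.val_lt j
          omega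
        rw [h3, h1, ZMod.natCast_self, ZMod.val_zero, hvm]
    have hβj : ∀ j : ZMod m, β (y j) (v j.val) = 0 := by
      intro j
      have := hβv j.val
      rwa [ZMod.natCast_zmod_val] at this
    have hvj : ∀ j : ZMod m, v (j + 1).val = dg E (Φ (τ j)) (G (y j)) (dg E G (y j) (v j.val)) := by
      intro j
      rw [hval, hvs, ZMod.natCast_zmod_val]
    have hex : ∀ j : ZMod m, ∃ s ∈ Es (p j), ∃ u' ∈ Eu (p j),
        ‖dm E e (y j) (v j.val) - dm E e (p j) (s + u')‖ ≤ ηL / 2 * ‖dm E e (y j) (v j.val)‖ ∧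
        ‖dm E e (G (y j)) (dg E G (y j) (v j.val)) - dm E e (G (p j)) (dg E G (p j) (s + u'))‖ ≤
          ηL / 2 * ‖dm E e (y j) (v j.val)‖ := fun j =>
      hlt (p j) (hpΛ j) (y j) ((hy1 j).trans_le ((min_le_left _ _).trans (min_le_left _ _)))
        (v j.val) (hβj j)
    choose s hs' u' hu' h1 h2 using hex
    have key := hlin (ZMod m) (Equiv.addRight (1 : ZMod m)) p
      (fun j => by rw [hR.Λ_eq]; exact hpΛ j)
      (fun j => by rw [hgeq]; exact (hpc j).trans_le (min_le_right _ _))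
      (fun j => dm E e (y j) (v j.val)) (fun j => dm E e (p j) (s j)) (fun j => dm E e (p j) (u' j))
      (fun j => by rw [hR.Vs_eq]; exact ⟨_, hs' j, rfl⟩)
      (fun j => by rw [hR.Vu_eq]; exact ⟨_, hu' j, rfl⟩)
      (fun j => by
        rw [← map_add]
        refine (h1 j).trans (mul_le_mul_of_nonneg_right (by linarith) (norm_nonneg _)))
      (fun j => by
        show ‖dm E e (y (j + 1)) (v (j + 1).val) -
          S.D (p j) (dm E e (p j) (s j) + dm E e (p j) (u' j))‖ ≤ _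
        rw [← map_add, hR.D_eq, hvj, ← hy3']
        have h3 := hder (τ j) ((hy2 j).trans_le ((min_le_left _ _).trans (min_le_right _ _)))
          (G (y j)) (dg E G (y j) (v j.val))
        have h4 := hBgv (y j) (v j.val)
        have h5 : ηL / (2 * Bg) * ‖dm E e (G (y j)) (dg E G (y j) (v j.val))‖ ≤
            ηL / (2 * Bg) * (Bg * ‖dm E e (y j) (v j.val)‖) :=
          mul_le_mul_of_nonneg_left h4 (by positivity)
        have h6 : ηL / (2 * Bg) * (Bg * ‖dm E e (y j) (v j.val)‖) =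
            ηL / 2 * ‖dm E e (y j) (v j.val)‖ := by field_simp
        have h7 := norm_add_le
          (dm E e (Φ (τ j) (G (y j))) (dg E (Φ (τ j)) (G (y j)) (dg E G (y j) (v j.val))) -
            dm E e (G (y j)) (dg E G (y j) (v j.val)))
          (dm E e (G (y j)) (dg E G (y j) (v j.val)) -
            dm E e (G (p j)) (dg E G (p j) (s j + u' j)))
        rw [sub_add_sub_cancel] at h7
        have h8 := h2 j
        linarith)
    have h3 := key 0
    have h4 : dm E e (y 0) (v (0 : ZMod m).val) = 0 := h3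
    rw [ZMod.val_zero, hv0] at h4
    exact he.inj (y 0) (by rw [h4, map_zero])
  refine ⟨y 0, hball ?_, ?_⟩
  · rw [Metric.mem_ball, dist_comm, ← hp0]
    exact (hy1 0).trans_le (min_le_right _ _)
  · refine Q71.WN.relative c d ({()} : Finset Unit) (fun _ => 1) (fun _ => G^[m]) (fun _ => -T m)
      (y 0) (fun _ _ => iter_smooth_inf G hGinf m) (fun _ _ x u => iter_strict G hGinf hGs m x u)
      (fun _ _ => ?_) ?_
    · show G^[m] (y 0) = Φ (-T m) (y 0)
      have h1 : Φ (T m) (G^[m] (y 0)) = y 0 := hHm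
      calc G^[m] (y 0) = Φ (-T m) (Φ (T m) (G^[m] (y 0))) := (d.toFD.neg_add _ _).symm
        _ = _ := by rw [h1]
    · intro u hu h1
      rw [Finset.sum_singleton, one_smul, sub_eq_zero] at h1
      refine hnd u hu ?_
      have h2 : (fun x => Φ (- -T m) (G^[m] x)) = H m := by
        rw [neg_neg]
      rw [h2] at h1
      exact h1

end Q263.HR
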