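import Mathlib
import Pool.Agent.H826R2.Wein.Stmt
import Pool.Agent.H721R2.AnosovDef

/-! Hyperbolic sets inside a contact structure. -/

set_option autoImplicit false

open scoped Manifold ContDiff Topology
open Pool.Agent.H826R2.WStmt Pool.Agent.H721R2

namespace Q263.HR

variable {E : Type*} [NormedAddCommGroup E] [NormedSpace ℝ E]
  {M : Type*} [TopologicalSpace M] [ChartedSpace E M]

/-- `Λ` is a hyperbolic set of `g` inside the hyperplane field `ker α`: `Λ` is closed, `g '' Λ = Λ`,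
at the points of `Λ` one has `ker α = Es + Eu` with `Dg`-invariant `Es`, `Eu`, and for all `n ≥ 0`
`‖Dgⁿ v‖ ≤ C aⁿ ‖v‖` for `v` in `Es` and `‖v‖ ≤ C aⁿ ‖Dgⁿ v‖` for `v` in `Eu`, where `a < 1` and
`‖·‖ = N` is a norm on the tangent bundle. -/
structure HypSet (α : M → Cov E) (g : M → M) (N : TangentBundle 𝓘(ℝ, E) M → ℝ) (Λ : Set M)
    (Es Eu : ∀ x : M, Submodule ℝ (TangentSpace 𝓘(ℝ, E) x)) (C a : ℝ) : Prop where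
  closed : IsClosed Λ
  inv : g '' Λ = Λ
  C_pos : 0 < C
  a_pos : 0 < a
  a_lt : a < 1
  sum : ∀ x ∈ Λ, ∀ v : TangentSpace 𝓘(ℝ, E) x, ev (α x) v = 0 ↔ v ∈ Es x ⊔ Eu x
  map_s : ∀ x ∈ Λ, (Es x).map (mfderiv 𝓘(ℝ, E) 𝓘(ℝ, E) g x).toLinearMap = Es (g x)
  map_u : ∀ x ∈ Λ, (Eu x).map (mfderiv 𝓘(ℝ, E) 𝓘(ℝ, E) g x).toLinearMap = Eu (g x)
  rate_s : ∀ (n : ℕ), ∀ x ∈ Λ, ∀ v ∈ Es x,
    N (tangentMap 𝓘(ℝ, E) 𝓘(ℝ, E) (g^[n]) ⟨x, v⟩) ≤ C * a ^ n * N ⟨x, v⟩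
  rate_u : ∀ (n : ℕ), ∀ x ∈ Λ, ∀ v ∈ Eu x,
    N ⟨x, v⟩ ≤ C * a ^ n * N (tangentMap 𝓘(ℝ, E) 𝓘(ℝ, E) (g^[n]) ⟨x, v⟩)

end Q263.HR
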