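import Mathlib
import Pool.Agent.H721R2.Riem
import Pool.Agent.Q263.HR.Def
import Pool.Agent.Q263.HR.Geo

/-! From intrinsic to ambient rates. -/

set_option autoImplicit false
set_option linter.unusedSectionVars false

open scoped Manifold ContDiff Topology
open Set Filter Pool.Agent.H721R2 Pool.Agent.H826R2.WStmt

namespace Q263.HR

universe u v w

variable {E : Type u} [NormedAddCommGroup E] [NormedSpace ℝ E] [FiniteDimensional ℝ E]
  {M : Type v} [MetricSpace M] [CompactSpace M] [ChartedSpace E M] [IsManifold 𝓘(ℝ, E) ∞ M]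
  {F : Type w} [NormedAddCommGroup F] [NormedSpace ℝ F]

theorem eh_of_hypSet {N : TangentBundle 𝓘(ℝ, E) M → ℝ} (hN : IsTangentNorm N) {e : M → F}
    (he : Emb E e) {α : M → Cov E} {β : M → E →L[ℝ] ℝ} (hβ : ∀ x (v : E), ev (α x) v = β x v)
    {R : M → E} (hu : ∀ x, β x (R x) = 1) (φ : M ≃ₜ M)
    (hsm : ContMDiff 𝓘(ℝ, E) 𝓘(ℝ, E) 1 φ) (hsm' : ContMDiff 𝓘(ℝ, E) 𝓘(ℝ, E) 1 φ.symm)
    {Λ : Set M} (Es Eu : ∀ x : M, Submodule ℝ (TangentSpace 𝓘(ℝ, E) x)) {C a : ℝ}
    (h : HypSet α φ N Λ Es Eu C a) : ∃ C' : ℝ, EH (E := E) e φ β R Λ Es Eu C' a := by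
  have he1 : ContMDiff 𝓘(ℝ, E) 𝓘(ℝ, F) 1 e := he.smooth.of_le (by simp)
  obtain ⟨Q, hQ, hcmp⟩ := tnm_compare hN e he1 he.inj
  have hC := h.C_pos
  have ha := h.a_pos
  let Es' : M → Submodule ℝ E := Es
  let Eu' : M → Submodule ℝ E := Eu
  have inv1 : ∀ x ∈ Λ, φ x ∈ Λ := fun x hx => by
    rw [← h.inv]; exact mem_image_of_mem φ hx
  have inv1' : ∀ x ∈ Λ, φ.symm x ∈ Λ := fun x hx => by
    rw [← h.inv] at hx
    obtain ⟨y, hy, rfl⟩ := hx
    rw [Homeomorph.symm_apply_apply]; exact hy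
  have inv : ∀ x ∈ Λ, ∀ n : ℕ, φ^[n] x ∈ Λ := by
    intro x hx n
    induction n with
    | zero => exact hx
    | succ n ih => rw [Function.iterate_succ_apply']; exact inv1 _ ih
  have inv' : ∀ x ∈ Λ, ∀ n : ℕ, φ.symm^[n] x ∈ Λ := by
    intro x hx n
    induction n with
    | zero => exact hx
    | succ n ih => rw [Function.iterate_succ_apply']; exact inv1' _ ih
  have map1 : ∀ (V : M → Submodule ℝ E), (∀ x ∈ Λ, (V x).map (dg E φ x).toLinearMap = V (φ x)) →
      ∀ (n : ℕ), ∀ x ∈ Λ, ∀ v ∈ V x, dg E (φ^[n]) x v ∈ V (φ^[n] x) := by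
    intro V hV n
    induction n with
    | zero =>
      intro x _ v hv
      have : dg E (φ^[0]) x v = v := by
        show mfderiv 𝓘(ℝ, E) 𝓘(ℝ, E) id x v = v
        rw [mfderiv_id]; rfl
      rw [this]; exact hv
    | succ n ih =>
      intro x hx v hv
      rw [Function.iterate_succ, dg_comp _ _ hsm (iter_smooth φ hsm n)]
      apply ih _ (inv1 x hx)
      rw [← hV x hx]
      exact ⟨v, hv, rfl⟩
  have map2 : ∀ (V : M → Submodule ℝ E), (∀ x ∈ Λ, (V x).map (dg E φ x).toLinearMap = V (φ x)) →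
      ∀ (n : ℕ), ∀ x ∈ Λ, ∀ v ∈ V x, dg E (φ.symm^[n]) x v ∈ V (φ.symm^[n] x) := by
    intro V hV n
    have base : ∀ x ∈ Λ, ∀ v ∈ V x, dg E φ.symm x v ∈ V (φ.symm x) := by
      intro x hx' v hv
      have hx : V x = V (φ (φ.symm x)) := by rw [Homeomorph.apply_symm_apply]
      rw [hx, ← hV _ (inv1' x hx')] at hv
      obtain ⟨w, hw, hwv⟩ := hv
      have h1 := dg_inv φ φ.symm hsm hsm' (fun x => φ.symm_apply_apply x) (φ.symm x) w
      rw [Homeomorph.apply_symm_apply] at h1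
      have h2 : dg E φ (φ.symm x) w = v := hwv
      rw [h2] at h1
      rw [h1]; exact hw
    induction n with
    | zero =>
      intro x _ v hv
      have : dg E (φ.symm^[0]) x v = v := by
        show mfderiv 𝓘(ℝ, E) 𝓘(ℝ, E) id x v = v
        rw [mfderiv_id]; rfl
      rw [this]; exact hv
    | succ n ih =>
      intro x hx v hv
      rw [Function.iterate_succ, dg_comp _ _ hsm' (iter_smooth φ.symm hsm' n)]
      exact ih _ (inv1' x hx) _ (base x hx v hv)
  have hEs : ∀ x ∈ Λ, (Es' x).map (dg E φ x).toLinearMap = Es' (φ x) := h.map_s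
  have hEu : ∀ x ∈ Λ, (Eu' x).map (dg E φ x).toLinearMap = Eu' (φ x) := h.map_u
  set C' := max 1 (Q * Q * C) with hC'
  have hC'1 : 1 ≤ C' := le_max_left _ _
  have hC'2 : Q * Q * C ≤ C' := le_max_right _ _
  -- transfer principle: upper bound
  have trans : ∀ (x y : M) (v w : E) (q : ℝ), 0 ≤ q → tnm N y w ≤ C * q * tnm N x v →
      ‖dm E e y w‖ ≤ C' * q * ‖dm E e x v‖ := by
    intro x y v w q hq hle
    have h1 := (hcmp y w).1
    have h2 := (hcmp x v).2
    calc ‖dm E e y w‖ ≤ Q * tnm N y w := h1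
      _ ≤ Q * (C * q * tnm N x v) := mul_le_mul_of_nonneg_left hle hQ.le
      _ ≤ Q * (C * q * (Q * ‖dm E e x v‖)) := by
          apply mul_le_mul_of_nonneg_left _ hQ.le
          exact mul_le_mul_of_nonneg_left h2 (by positivity)
      _ = (Q * Q * C) * (q * ‖dm E e x v‖) := by ring
      _ ≤ C' * (q * ‖dm E e x v‖) := mul_le_mul_of_nonneg_right hC'2 (by positivity)
      _ = _ := by ring
  have hcancel : ∀ (n : ℕ) (x : M) (v : E),
      dg E (φ^[n]) (φ.symm^[n] x) (dg E (φ.symm^[n]) x v) = v := fun n x v =>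
    dg_inv (φ.symm^[n]) (φ^[n]) (iter_smooth φ.symm hsm' n) (iter_smooth φ hsm n)
      (iter_right φ n) x v
  have hmem : ∀ x ∈ Λ, ∀ v : E, β x v = 0 ↔ v ∈ Es' x ⊔ Eu' x := fun x hx v => by
    rw [← hβ]; exact h.sum x hx v
  have hdec : ∀ x ∈ Λ, ∀ v : E, β x v = 0 → ∃ s ∈ Es' x, ∃ u ∈ Eu' x, s + u = v := by
    intro x hx v hv
    have h1 := (hmem x hx v).1 hv
    exact Submodule.mem_sup.mp h1
  refine ⟨C', {
    smooth := hsm
    smooth' := hsm'
    unit := hu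
    inv := inv
    inv' := inv'
    decomp := hdec
    kerS := fun x hx v hv => (hmem x hx v).2 ((le_sup_left : Es' x ≤ Es' x ⊔ Eu' x) hv)
    kerU := fun x hx v hv => (hmem x hx v).2 ((le_sup_right : Eu' x ≤ Es' x ⊔ Eu' x) hv)
    C_pos := hC'1
    a_pos := ha
    a_lt := h.a_lt
    mapS := map1 Es' hEs
    mapU := map1 Eu' hEu
    mapS' := map2 Es' hEs
    mapU' := map2 Eu' hEu
    hS := ?_
    hU' := ?_ }⟩
  · intro n x hx v hv
    exact trans x _ v _ _ (by positivity) (h.rate_s n x hx v hv)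
  · intro n x hx v hv
    apply trans x _ v _ _ (by positivity)
    have h1 := h.rate_u n (φ.symm^[n] x) (inv' x hx n) _ (map2 Eu' hEu n x hx v hv)
    change tnm N (φ.symm^[n] x) (dg E (φ.symm^[n]) x v) ≤ C * a ^ n *
      tnm N (φ^[n] (φ.symm^[n] x)) (dg E (φ^[n]) (φ.symm^[n] x) (dg E (φ.symm^[n]) x v)) at h1
    rw [hcancel, iter_right] at h1
    exact h1

end Q263.HR
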