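import Mathlib
import Pool.Agent.Q263.HR.End
import Pool.Agent.Q263.HR.Rates

/-! Assembly. -/

set_option autoImplicit false
set_option linter.unusedSectionVars false

open scoped Manifold ContDiff Topology
open Set Filter Pool.Agent.H721R2 Pool.Agent.H826R2.WStmt

namespace Q263.HR

universe u v w

section

variable {E : Type u} [NormedAddCommGroup E] [NormedSpace ℝ E] [FiniteDimensional ℝ E]
  {M : Type v} [MetricSpace M] [CompactSpace M] [ChartedSpace E M] [IsManifold 𝓘(ℝ, E) ∞ M]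
  {F : Type w} [NormedAddCommGroup F] [NormedSpace ℝ F]

/-- metric version -/
theorem main_metric (hCorr : ∀ S : Sys M F, S.Corr) (hShad : ∀ S : Sys M F, S.Corr → S.Shad)
    (hLin : ∀ S : Sys M F, S.Lin) (hFC : S_FC.{u, v, w}) (hFL : S_FL.{u, v, w})
    (hDER : S_DER.{u, v, w}) (hTR : S_TR.{u, v, w}) (hANG : S_ANG.{u, v, w})
    (hCONT : S_CONT.{u, v, w}) (hLT : S_LT.{u, v, w}) (hCH : S_CHAIN.{v})
    {e : M → F} (he : Emb E e)
    {α : M → Cov E} (hα : IsContact α) {R : M → E} (hR : IsReeb α R)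
    {Φ : ℝ → M → M} (hΦ0 : ∀ x, Φ 0 x = x)
    (hΦ : ∀ x, IsMIntegralCurve (I := 𝓘(ℝ, E)) (fun t => Φ t x)
      (fun x => (R x : TangentSpace 𝓘(ℝ, E) x)))
    (g : Diffeomorph 𝓘(ℝ, E) 𝓘(ℝ, E) M M ∞) (hg : pull (E' := E) g α = α)
    {N : TangentBundle 𝓘(ℝ, E) M → ℝ} (hN : IsTangentNorm N) {Λ : Set M}
    (Es Eu : ∀ x : M, Submodule ℝ (TangentSpace 𝓘(ℝ, E) x)) {C a : ℝ}
    (h : HypSet α g N Λ Es Eu C a) (z : M) (hz : ChainRec g Λ z) (U : Set M) (hU : U ∈ 𝓝 z) :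
    ∃ y ∈ U, ∃ T : ℝ, IsPeriodicOrbit R (fun t => Φ t y) T := by
  let β : M → E →L[ℝ] ℝ := α
  have c : Pool.Agent.H826R2.Wein.CD (P := M) β R := ⟨hα.toWein, hR.toWein⟩
  have d : Q71.WN.Dat β R Φ := Q71.WN.reeb_dat c hΦ0 hΦ
  obtain ⟨B, hβ⟩ := hFC E M F e he β d.smooth
  obtain ⟨B', hFl⟩ := hFL E M F e he R Φ d.toFD
  let f : M ≃ₜ M := g.toHomeomorph
  have hfg : (f : M → M) = g := rfl
  have hsm : ContMDiff 𝓘(ℝ, E) 𝓘(ℝ, E) ∞ f := g.contMDiff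
  have hsm' : ContMDiff 𝓘(ℝ, E) 𝓘(ℝ, E) ∞ f.symm := g.symm.contMDiff
  obtain ⟨C', hE⟩ := eh_of_hypSet hN he (α := α) (β := β) (fun _ _ => rfl) (R := R)
    (fun x => d.unit x) f (hsm.of_le (by simp)) (hsm'.of_le (by simp)) Es Eu h
  obtain ⟨K, hK, hang⟩ := hANG E M F e he β B hβ R B' hFl.bd f Λ Es Eu C' a hE
  have t1 : Tendsto (fun n : ℕ => K * (C' * a ^ n)) atTop (𝓝 0) := by
    have := ((tendsto_pow_atTop_nhds_zero_of_lt_one hE.a_pos.le hE.a_lt).const_mul C').const_mul K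
    simpa using this
  obtain ⟨n, hn⟩ := ((tendsto_order.mp t1).2 (1 / 16) (by norm_num)).exists
  obtain ⟨S, hS⟩ := exists_sys hTR hCONT he hβ hFl d.toFD hE K hK hang n hn.le
  have hs : ∀ x (u : E), β (f x) (dg E f x u) = β x u := fun x u =>
    congrArg (fun a : Cov E => ev a u) (congrFun hg x)
  obtain ⟨y, hy, T, hT, hTy⟩ := closed_orbit hLT hDER hCH he hβ hFl c d hE hsm hs n S hS
    (hShad S (hCorr S)) (hLin S) z hz U hU
  refine ⟨y, hy, T, hT, hΦ y, fun t => ?_⟩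
  show Φ (t + T) y = Φ t y
  rw [d.add, hTy]

end

end Q263.HR
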